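import Mathlib

namespace Pool.Agent.Results.MP_efe325_an.Equiv

open Finset MeasureTheory
open scoped ENNReal symmDiff InnerProductSpace

/-- edges of the geodesic from the extra vertex to `x`, each edge named by its child endpoint -/
def anc (x : List Bool) : Finset (List Bool) := x.tails.toFinset

/-- the parent of a vertex; `none` is the extra vertex -/
def par : List Bool → Option (List Bool)
  | [] => none
  | _ :: t => some t

/-- the kernel `k` -/
def kk (p q : List Bool × List Bool) : ℤ :=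
  #(anc p.1 ∩ anc q.1) + #(anc p.2 ∩ anc q.2) - #(anc p.1 ∩ anc q.2) - #(anc p.2 ∩ anc q.1)

def seg (p : List Bool × List Bool) : Finset (List Bool) := anc p.1 ∆ anc p.2

lemma mem_anc {v x : List Bool} : v ∈ anc x ↔ v <:+ x := by simp [anc]

lemma anc_cons (b : Bool) (t : List Bool) : anc (b :: t) = insert (b :: t) (anc t) := by
  ext v; simp [mem_anc, List.suffix_cons_iff]

lemma not_mem_anc (b : Bool) (t : List Bool) : b :: t ∉ anc t := by
  rw [mem_anc]; intro h; simpa using h.length_le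

lemma tree {v w x y z : List Bool} (h1 : v ∈ anc x) (h2 : w ∈ anc x) (h3 : v ∈ anc y)
    (h4 : w ∈ anc z) : w ∈ anc y ∨ v ∈ anc z := by
  simp only [mem_anc] at *
  rcases List.suffix_or_suffix_of_suffix h1 h2 with h | h
  · exact Or.inr (h.trans h4)
  · exact Or.inl (h.trans h3)

lemma abs_kk (p q : List Bool × List Bool) : |kk p q| = #(seg p ∩ seg q) := by
  obtain ⟨a, b⟩ := p
  obtain ⟨x, y⟩ := q
  have hc : ∀ S ⊆ anc a ∪ anc b, (#S : ℤ) = ∑ v ∈ anc a ∪ anc b, if v ∈ S then 1 else 0 :=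
    fun S h => by simp [inter_eq_right.2 h]
  have e : kk (a, b) (x, y) = ∑ v ∈ anc a ∪ anc b, (((if v ∈ anc a ∩ anc x then 1 else 0) +
      (if v ∈ anc b ∩ anc y then 1 else 0) - (if v ∈ anc a ∩ anc y then 1 else 0) -
      (if v ∈ anc b ∩ anc x then 1 else 0)) : ℤ) := by
    rw [sum_sub_distrib, sum_sub_distrib, sum_add_distrib, ← hc, ← hc, ← hc, ← hc]
    · rfl
    all_goals intro v; simp only [mem_inter, mem_union]; tauto
  have e2 := hc (seg (a, b) ∩ seg (x, y)) (by
    intro v; simp only [seg, mem_inter, mem_union, mem_symmDiff]; tauto)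
  by_cases hN : ∃ w, (w ∈ anc a ∧ w ∉ anc b ∧ w ∈ anc y ∧ w ∉ anc x) ∨
      (w ∈ anc b ∧ w ∉ anc a ∧ w ∈ anc x ∧ w ∉ anc y)
  · obtain ⟨w, hw⟩ := hN
    have : kk (a, b) (x, y) = -#(seg (a, b) ∩ seg (x, y)) := by
      rw [e, e2, ← sum_neg_distrib]
      refine sum_congr rfl fun v _ => ?_
      have t1 := @tree v w a x y
      have t2 := @tree v w x a b
      have t3 := @tree v w y b a
      have t4 := @tree v w b y x
      simp only [seg, mem_inter, mem_symmDiff]
      clear e e2 hc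
      by_cases h1 : v ∈ anc a <;> by_cases h2 : v ∈ anc b <;> by_cases h3 : v ∈ anc x <;>
        by_cases h4 : v ∈ anc y <;> simp [h1, h2, h3, h4] <;> grind
    rw [this]; simp
  · push Not at hN
    have : kk (a, b) (x, y) = #(seg (a, b) ∩ seg (x, y)) := by
      rw [e, e2]
      refine sum_congr rfl fun v _ => ?_
      have t := hN v
      simp only [seg, mem_inter, mem_symmDiff]
      clear e e2 hc hN
      by_cases h1 : v ∈ anc a <;> by_cases h2 : v ∈ anc b <;> by_cases h3 : v ∈ anc x <;>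
        by_cases h4 : v ∈ anc y <;> simp [h1, h2, h3, h4] <;> grind
    rw [this]; simp

lemma nil_not_mem (p : List Bool × List Bool) : [] ∉ seg p := by
  simp [seg, mem_symmDiff, mem_anc]

lemma seg_tail (v : List Bool) : seg (v.tail, v) = if v = [] then ∅ else {v} := by
  cases v with
  | nil => simp [seg]
  | cons b t =>
    have := not_mem_anc b t
    ext w
    simp only [seg, List.tail_cons, anc_cons, mem_symmDiff, mem_insert]
    by_cases h : w = b :: t <;> simp [h, this]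

lemma sum_seg {M : Type*} [AddCommMonoid M] (f : List Bool → M) (x y : List Bool) :
    ∑ v ∈ seg (x, y), f v = ∑ v ∈ anc x \ anc y, f v + ∑ v ∈ anc y \ anc x, f v := by
  rw [← sum_union disjoint_sdiff_sdiff]; rfl

variable {𝕜 : Type*} [RCLike 𝕜] {H : Type*} [NormedAddCommGroup H] [InnerProductSpace 𝕜 H]

lemma tele (F : Option (List Bool) → 𝕜) (x : List Bool) :
    F (some x) = F none + ∑ v ∈ anc x, (F (some v) - F (par v)) := by
  induction x with
  | nil => simp [anc, par]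
  | cons b t ih =>
    rw [anc_cons, sum_insert (not_mem_anc b t)]
    simp only [par] at ih ⊢
    linear_combination ih

lemma diff_le (F : Option (List Bool) → 𝕜) (x y : List Bool) :
    ‖F (some x) - F (some y)‖ ≤ ∑ v ∈ seg (x, y), ‖F (some v) - F (par v)‖ := by
  rw [tele F x, tele F y, add_sub_add_left_eq_sub, ← sum_sdiff_sub_sum_sdiff, sum_seg]
  exact (norm_sub_le _ _).trans (add_le_add (norm_sum_le _ _) (norm_sum_le _ _))

lemma prim (h : List Bool → 𝕜) : ∃ F : Option (List Bool) → 𝕜,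
    (∀ v, F (some v) - F (par v) = h v) ∧ ∀ x, F (some x) = ∑ v ∈ anc x, h v := by
  refine ⟨fun o => o.elim 0 fun x => ∑ v ∈ anc x, h v, fun v => ?_, fun x => rfl⟩
  cases v with
  | nil => simp [par, anc]
  | cons b t => simp [par, anc_cons, sum_insert (not_mem_anc b t)]

variable {K : List Bool × List Bool → H}

lemma in_e (hK : ∀ p q, ⟪K p, K q⟫_𝕜 = (#(seg p ∩ seg q) : ℕ)) (p) (v : List Bool) :
    ⟪K p, K (v.tail, v)⟫_𝕜 = if v ∈ seg p then 1 else 0 := by
  rw [hK, seg_tail]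
  by_cases h : v = []
  · simp [h, nil_not_mem]
  · by_cases h2 : v ∈ seg p <;> simp [h, h2]

lemma in_e' (hK : ∀ p q, ⟪K p, K q⟫_𝕜 = (#(seg p ∩ seg q) : ℕ)) (p) (v : List Bool) :
    ⟪K (v.tail, v), K p⟫_𝕜 = if v ∈ seg p then 1 else 0 := by
  rw [hK, inter_comm, ← hK, in_e hK]

lemma K_eq (hK : ∀ p q, ⟪K p, K q⟫_𝕜 = (#(seg p ∩ seg q) : ℕ)) (p) :
    K p = ∑ v ∈ seg p, K (v.tail, v) := by
  rw [← sub_eq_zero, ← inner_self_eq_zero (𝕜 := 𝕜)]
  have h1 : ∀ v ∈ seg p, ⟪K (v.tail, v), K p - ∑ v ∈ seg p, K (v.tail, v)⟫_𝕜 = 0 := by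
    intro v hv
    have hv0 : v ≠ [] := fun h => nil_not_mem p (h ▸ hv)
    rw [inner_sub_right, inner_sum, in_e' hK]
    simp [in_e hK, seg_tail, hv0, hv]
  rw [inner_sub_left, sum_inner, sum_eq_zero h1, inner_sub_right, inner_sum, hK]
  simp [in_e hK]

lemma orth (hK : ∀ p q, ⟪K p, K q⟫_𝕜 = (#(seg p ∩ seg q) : ℕ)) :
    Orthonormal 𝕜 fun v : {v : List Bool // v ≠ []} => K (v.1.tail, v.1) := by
  rw [orthonormal_iff_ite]
  intro v w
  rw [in_e hK, seg_tail, if_neg v.2]
  simp [Subtype.ext_iff, eq_comm]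

lemma bessel (hK : ∀ p q, ⟪K p, K q⟫_𝕜 = (#(seg p ∩ seg q) : ℕ)) (g : H) :
    ∑' v : List Bool, ‖⟪K (v.tail, v), g⟫_𝕜‖ₑ ^ 2 ≤ ‖g‖ₑ ^ 2 := by
  rw [ENNReal.tsum_eq_iSup_sum]
  refine iSup_le fun s => ?_
  have h := (orth hK).sum_inner_products_le (s := s.subtype (· ≠ [])) g
  rw [sum_subtype_eq_sum_filter (fun v : List Bool => ‖⟪K (v.tail, v), g⟫_𝕜‖ ^ 2),
    sum_filter_of_ne] at h
  · simp only [← ofReal_norm, ← ENNReal.ofReal_pow (norm_nonneg _)]
    rw [← ENNReal.ofReal_sum_of_nonneg (fun _ _ => by positivity)]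
    exact ENNReal.ofReal_le_ofReal h
  · rintro v _ hv rfl
    apply hv
    rw [K_eq hK]; simp [seg]

lemma norm_comb (hK : ∀ p q, ⟪K p, K q⟫_𝕜 = (#(seg p ∩ seg q) : ℕ)) (c : List Bool → ℝ)
    (s : Finset (List Bool)) :
    ‖∑ v ∈ s, (c v : 𝕜) • K (v.tail, v)‖ ^ 2 ≤ ∑ v ∈ s, c v ^ 2 := by
  rw [← inner_self_eq_norm_sq (𝕜 := 𝕜), sum_inner, map_sum]
  refine sum_le_sum fun v hv => ?_
  rw [inner_sum]
  simp only [inner_smul_left, inner_smul_right, in_e hK, seg_tail]
  by_cases h : v = []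
  · simp [h]; positivity
  · simp [h, hv, sq]

lemma lint [MeasurableSpace (List Bool)] [DiscreteMeasurableSpace (List Bool)]
    (μ : Measure (List Bool)) (f : List Bool × List Bool → ℝ≥0∞) :
    ∫⁻ p, f p ∂(μ.prod μ) = ∑' p : List Bool × List Bool, f p * (μ {p.1} * μ {p.2}) := by
  have : SFinite μ := by rw [← Measure.sum_smul_dirac μ]; infer_instance
  rw [lintegral_countable']
  refine tsum_congr fun p => ?_
  rw [← Measure.prod_prod, Set.singleton_prod_singleton]

theorem result {𝕜 : Type*} [RCLike 𝕜] {H : Type*} [NormedAddCommGroup H] [InnerProductSpace 𝕜 H]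
    [CompleteSpace H] [RKHS 𝕜 H (List Bool × List Bool) 𝕜]
    (hker : ∀ p q, RKHS.kernel H p q (1 : 𝕜) = ((|kk p q| : ℤ) : 𝕜))
    [MeasurableSpace (List Bool)] [DiscreteMeasurableSpace (List Bool)]
    (μ : Measure (List Bool)) :
    (∃ C : ℝ≥0∞, C < ⊤ ∧ ∀ F : Option (List Bool) → 𝕜,
      ∫⁻ p, ‖F (some p.1) - F (some p.2)‖ₑ ^ 2 ∂(μ.prod μ) ≤
        C * ∑' v : List Bool, ‖F (some v) - F (par v)‖ₑ ^ 2) ↔
    (∃ C : ℝ≥0∞, C < ⊤ ∧ ∀ G : H, ∫⁻ p, ‖G p‖ₑ ^ 2 ∂(μ.prod μ) ≤ C * ‖G‖ₑ ^ 2) := by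
  set K : List Bool × List Bool → H := fun p => RKHS.kerFun H p (1 : 𝕜) with hKd
  have hG : ∀ (G : H) p, G p = ⟪K p, G⟫_𝕜 := fun G p => by simp [hKd]
  have hK : ∀ p q, ⟪K p, K q⟫_𝕜 = (#(seg p ∩ seg q) : ℕ) := fun p q => by
    rw [← hG, hKd]
    simp only
    rw [RKHS.kerFun_apply, hker, abs_kk]; simp
  simp only [lint]
  constructor
  · rintro ⟨C, hC, h⟩
    by_cases h0 : ∀ x, μ {x} = 0
    · exact ⟨0, by simp, fun G => by simp [h0]⟩
    push Not at h0
    obtain ⟨x0, hx0⟩ := h0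
    have key : ∀ F : Option (List Bool) → 𝕜,
        (∑' x, ‖F (some x) - F (some x0)‖ₑ ^ 2 * μ {x}) * μ {x0} ≤
        C * ∑' v : List Bool, ‖F (some v) - F (par v)‖ₑ ^ 2 := fun F => by
      refine le_trans ?_ (h F)
      rw [← ENNReal.tsum_mul_right, ENNReal.tsum_prod']
      refine ENNReal.tsum_le_tsum fun x => ?_
      rw [mul_assoc]
      exact ENNReal.le_tsum (f := fun y => ‖F (some x) - F (some y)‖ₑ ^ 2 * (μ {x} * μ {y})) x0
    set R := ∑' x, (if x = x0 then 0 else μ {x}) with hR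
    have hRfin : R < ⊤ := by
      have h1 := key fun o => if o = some x0 then 1 else 0
      have h2 : ∑' v : List Bool, ‖(if some v = some x0 then (1 : 𝕜) else 0) -
          (if par v = some x0 then 1 else 0)‖ₑ ^ 2 < ⊤ := by
        rw [tsum_eq_sum (s := {x0, true :: x0, false :: x0})]
        · exact ENNReal.sum_lt_top.2 fun _ _ => ENNReal.pow_lt_top enorm_lt_top
        · intro v hv
          simp only [mem_insert, mem_singleton, not_or] at hv
          have : par v ≠ some x0 := by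
            rcases v with _ | ⟨b, t⟩
            · simp [par]
            · rintro ⟨rfl⟩
              cases b <;> simp at hv
          simp [hv.1, this]
      have h3 := h1.trans_lt (ENNReal.mul_lt_top hC h2)
      have h4 : (∑' x, ‖(if some x = some x0 then (1 : 𝕜) else 0) -
          (if some x0 = some x0 then 1 else 0)‖ₑ ^ 2 * μ {x}) = R := by
        refine tsum_congr fun x => ?_
        by_cases hx : x = x0 <;> simp [hx]
      rw [h4] at h3
      exact ENNReal.lt_top_of_mul_ne_top_left h3.ne hx0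
    refine ⟨4 * (C + R * (C / μ {x0})), ENNReal.mul_lt_top (by simp) (ENNReal.add_lt_top.2
      ⟨hC, ENNReal.mul_lt_top hRfin (ENNReal.div_lt_top hC.ne hx0)⟩), fun G => ?_⟩
    set g : List Bool → ℝ := fun v => ‖⟪K (v.tail, v), G⟫_𝕜‖ with hg
    set I : List Bool → ℝ := fun x => ∑ v ∈ seg (x, x0), g v with hI
    have hI0 : ∀ x, 0 ≤ I x := fun x => sum_nonneg fun _ _ => norm_nonneg _
    set S := ∑' x, ENNReal.ofReal (I x) ^ 2 * μ {x} with hS
    have hS1 : S * μ {x0} ≤ C * ‖G‖ₑ ^ 2 := by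
      obtain ⟨F, hF1, hF2⟩ := prim (𝕜 := 𝕜) fun v => if v ∈ anc x0 then -(g v : 𝕜) else g v
      have h1 := key F
      have h2 : ∀ x, F (some x) - F (some x0) = (I x : 𝕜) := fun x => by
        rw [hF2, hF2, ← sum_sdiff_sub_sum_sdiff, hI]
        simp only [sum_seg]
        push_cast
        rw [sub_eq_add_neg, ← sum_neg_distrib]
        congr 1
        · exact sum_congr rfl fun v hv => if_neg (mem_sdiff.1 hv).2
        · exact sum_congr rfl fun v hv => by rw [if_pos (mem_sdiff.1 hv).1, neg_neg]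
      have h3 : ∀ x, ‖(I x : 𝕜)‖ₑ = ENNReal.ofReal (I x) := fun x => by
        rw [← ofReal_norm, RCLike.norm_ofReal, abs_of_nonneg (hI0 x)]
      simp only [h2, h3, hF1] at h1
      refine h1.trans (mul_le_mul_right (le_trans (le_of_eq ?_) (bessel hK G)) _)
      refine tsum_congr fun v => ?_
      congr 1
      rw [← ofReal_norm, ← ofReal_norm]
      split_ifs <;> simp [hg]
    have hS2 : S ≤ C / μ {x0} * ‖G‖ₑ ^ 2 := by
      rw [← ENNReal.mul_div_right_comm]
      exact (ENNReal.le_div_iff_mul_le (Or.inl hx0) (Or.inr (ENNReal.mul_ne_top hC.ne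
        (ENNReal.pow_ne_top enorm_ne_top)))).2 hS1
    have hT : ∑' x, μ {x} = μ {x0} + R := by
      rw [hR]; convert ENNReal.tsum_eq_add_tsum_ite (f := fun x => μ {x}) x0
    have hpt : ∀ p : List Bool × List Bool, ‖G p‖ₑ ^ 2 ≤
        2 * ENNReal.ofReal (I p.1) ^ 2 + 2 * ENNReal.ofReal (I p.2) ^ 2 := by
      rintro ⟨x, y⟩
      have h1 : ‖G (x, y)‖ ≤ I x + I y := by
        rw [hG, K_eq hK, sum_inner]
        refine (norm_sum_le _ _).trans ?_
        have h2 : ∑ v ∈ seg (x, y), g v ≤ ∑ v ∈ seg (x, x0) ∪ seg (y, x0), g v :=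
          sum_le_sum_of_subset_of_nonneg (by
            intro v; simp only [seg, mem_union, mem_symmDiff]; tauto) fun _ _ _ => norm_nonneg _
        have h3 := sum_union_inter (s₁ := seg (x, x0)) (s₂ := seg (y, x0)) (f := g)
        have h4 : 0 ≤ ∑ v ∈ seg (x, x0) ∩ seg (y, x0), g v := sum_nonneg fun _ _ => norm_nonneg _
        simp only [hI]
        linarith
      have h2 : ‖G (x, y)‖ ^ 2 ≤ 2 * I x ^ 2 + 2 * I y ^ 2 := by
        nlinarith [norm_nonneg (G (x, y)), sq_nonneg (I x - I y), hI0 x, hI0 y]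
      have h3 := ENNReal.ofReal_le_ofReal h2
      rwa [ENNReal.ofReal_add (by positivity) (by positivity), ENNReal.ofReal_mul (by norm_num),
        ENNReal.ofReal_mul (by norm_num), ENNReal.ofReal_pow (norm_nonneg _),
        ENNReal.ofReal_pow (hI0 _), ENNReal.ofReal_pow (hI0 _), ofReal_norm,
        ENNReal.ofReal_ofNat] at h3
    calc _ ≤ ∑' p : List Bool × List Bool, (2 * ((ENNReal.ofReal (I p.1) ^ 2 * μ {p.1}) * μ {p.2}) +
          2 * (μ {p.1} * (ENNReal.ofReal (I p.2) ^ 2 * μ {p.2}))) :=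
          ENNReal.tsum_le_tsum fun p => (mul_le_mul_left (hpt p) _).trans (le_of_eq (by ring))
      _ = 4 * (S * μ {x0} + R * S) := by
          rw [ENNReal.tsum_add, ENNReal.tsum_mul_left, ENNReal.tsum_mul_left, ENNReal.tsum_prod',
            ENNReal.tsum_prod']
          simp only [ENNReal.tsum_mul_left, ENNReal.tsum_mul_right]
          rw [← hS, hT]; ring
      _ ≤ 4 * (C * ‖G‖ₑ ^ 2 + R * (C / μ {x0} * ‖G‖ₑ ^ 2)) := by gcongr
      _ = _ := by ring
  · rintro ⟨C, hC, h⟩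
    refine ⟨C, hC, fun F => ?_⟩
    rw [ENNReal.tsum_eq_iSup_sum]
    refine iSup_le fun P => ?_
    set c : List Bool → ℝ := fun v => ‖F (some v) - F (par v)‖ with hc
    set s := P.biUnion seg
    have h1 := h (∑ v ∈ s, (c v : 𝕜) • K (v.tail, v))
    refine le_trans ?_ (h1.trans (mul_le_mul_right ?_ _))
    · refine le_trans (sum_le_sum fun p hp => ?_) (ENNReal.sum_le_tsum P)
      gcongr
      rw [← ofReal_norm, ← ofReal_norm]
      refine ENNReal.ofReal_le_ofReal ((diff_le F p.1 p.2).trans (le_of_eq ?_))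
      rw [hG, inner_sum]
      simp only [inner_smul_right, in_e hK, mul_ite, mul_one, mul_zero, sum_ite_mem]
      rw [inter_eq_right.2 (subset_biUnion_of_mem seg hp), ← RCLike.ofReal_sum, RCLike.norm_ofReal,
        abs_of_nonneg (sum_nonneg fun _ _ => norm_nonneg _)]
    · refine le_trans ?_ (ENNReal.sum_le_tsum s)
      simp only [← ofReal_norm, ← ENNReal.ofReal_pow (norm_nonneg _)]
      rw [← ENNReal.ofReal_sum_of_nonneg (fun _ _ => by positivity)]
      exact ENNReal.ofReal_le_ofReal (norm_comb hK c s)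

end Pool.Agent.Results.MP_efe325_an.Equiv
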